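import Pool.Agent.N790.CM.F
import Pool.Agent.N903.HW.A

/-!
# The Ramanujan bound for cusp forms of weight 3/2 near all multiples of Carmichael's function of almost all integers

Let `f(z) = Σ a(n) e(nz)` be a cusp form of weight `3/2` and of any level divisible by `4`, for instance `24 p`, with any
character, and let `B` be a bound of `y^(3/4) |f(z)|`. Let `0 < ε < 1/2`, `D ≥ 1`, let `G` be a function with steps bounded
below by a positive constant and growth at most `v^d`, for example `α v^d`, and `D (d (1 - 2 ε) + κ) < 1`. For all `u ≤ M` but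
`M / (log M)^U`, for ALL multiples `w ≤ M^D` of Carmichael's function `λ(u)`, EVERY `r` with `|r - G(w)| ≤ w^κ` satisfies
`|a(r)| ≤ B r^(1/4 + ε)`; `M` has to be large, but how large does not depend on `f` or on the level. More generally `w` is any
common multiple of the values `F p` at the large primes `p` dividing `u` exactly once, where `F` takes each positive value at
boundedly many primes, for instance `F p = |P(p)|` for a nonconstant integral polynomial `P`.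

Proof. `∫ |f(x + i y)|² dx ≤ B² y^(-3/2)` shows `Σ_{n ≤ N} |a(n)|² ≤ e^(4 π) B² N^(3/2)`, and so at most `C(ε) N^(1 - 2 ε)`
integers `r ≤ N` violate the bound (the lemmas of `Pool/Agent/N903/HW`). Some `w` are multiples of `λ(u)` for more than
`M^(1 - δ)` of the `u ≤ M`, so that this is not enough; but outside a set of `M / (log M)^U` numbers `u` every `w ≤ M^D` is
a common multiple for at most `M^δ` of the `u` (`Pool/Agent/N790/CM`).
-/

set_option autoImplicit false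

namespace Pool.Agent.Results.MP_af11aa_nt.CarmichaelMultiples

open Finset
open Pool.Agent.N733.TG (Expanding expanding_pow)
open Pool.Agent.N790.CM (FewTimes Carries fewTimes_pred fewTimes_poly carries_carmichael good_unif)
open Pool.Agent.N903.HW (e theta)

/-- `f` is a cusp form of weight `3/2` on `Γ_0(N)` with the character `χ` (Shimura's normalisation: the automorphy factor is
`χ(d) j(γ, z)^3`, `j(γ, z) = θ(γ z) / θ(z)`). That `f` vanishes at the cusps is expressed, as usual, by the boundedness of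
`y^(3/4) |f(z)|` in the upper half plane. -/
structure IsCuspForm (N : ℕ) (χ : DirichletCharacter ℂ N) (f : ℂ → ℂ) : Prop where
  holo : DifferentiableOn ℂ f {z : ℂ | 0 < z.im}
  modular : ∀ a b c d : ℤ, a * d - b * c = 1 → (N : ℤ) ∣ c → ∀ z : ℂ, 0 < z.im →
    f ((a * z + b) / (c * z + d)) = χ (d : ZMod N) * (theta ((a * z + b) / (c * z + d)) / theta z) ^ 3 * f z
  cusp : ∃ B : ℝ, ∀ z : ℂ, 0 < z.im → z.im ^ (3 / 4 : ℝ) * ‖f z‖ ≤ B

/-- `a(n)`, `n ≥ 1`, are the Fourier coefficients at infinity of a cusp form `f` of weight `3/2`, of some level divisible by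
`4` and some character, and `y^(3/4) |f(z)| ≤ B` in the upper half plane. -/
def Coeffs (a : ℕ → ℂ) (B : ℝ) : Prop :=
  ∃ (N : ℕ) (χ : DirichletCharacter ℂ N) (f : ℂ → ℂ), 1 ≤ N ∧ 4 ∣ N ∧ IsCuspForm N χ f ∧ a 0 = 0 ∧
    (∀ z : ℂ, 0 < z.im → HasSum (fun n : ℕ => a n * e (n * z)) (f z)) ∧
    ∀ z : ℂ, 0 < z.im → z.im ^ (3 / 4 : ℝ) * ‖f z‖ ≤ B

/-- the exceptions -/
theorem few {ε : ℝ} (hε : 0 < ε) (hε2 : ε < 1 / 2) : ∃ C : ℝ, ∀ (a : ℕ → ℂ) (B : ℝ), Coeffs a B → ∀ X : ℝ, 1 ≤ X →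
    {t : ℕ | (1 ≤ t ∧ ¬ ‖a t‖ ≤ B * (t : ℝ) ^ (1 / 4 + ε)) ∧ (t : ℝ) ≤ X}.Finite ∧
    ({t : ℕ | (1 ≤ t ∧ ¬ ‖a t‖ ≤ B * (t : ℝ) ^ (1 / 4 + ε)) ∧ (t : ℝ) ≤ X}.ncard : ℝ) ≤ C * X ^ (1 - 2 * ε) := by
  obtain ⟨C, hC0, hC⟩ := Pool.Agent.N903.HW.exceptional' (K := Real.exp (4 * Real.pi)) (by positivity) hε hε2
  refine ⟨C, fun a B h X hX => ?_⟩
  obtain ⟨N, χ, f, -, -, -, -, h1, h2⟩ := h
  have hB : 0 ≤ B := by
    refine le_trans ?_ (h2 Complex.I (by simp))
    have : (0 : ℝ) ≤ Complex.I.im ^ (3 / 4 : ℝ) := Real.rpow_nonneg (by simp) _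
    positivity
  have h3 := hC a B hB (fun N hN => Pool.Agent.N903.HW.mean_square f a h1 h2 N hN) ⌊X⌋₊
  have h4 : {t : ℕ | (1 ≤ t ∧ ¬ ‖a t‖ ≤ B * (t : ℝ) ^ (1 / 4 + ε)) ∧ (t : ℝ) ≤ X} =
      {t : ℕ | 1 ≤ t ∧ t ≤ ⌊X⌋₊ ∧ ¬ ‖a t‖ ≤ B * (t : ℝ) ^ (1 / 4 + ε)} := by
    ext t
    simp only [Set.mem_ofPred_eq]
    rw [Nat.le_floor_iff (by linarith)]
    tauto
  rw [h4]
  constructor
  · apply (Set.finite_Icc 1 ⌊X⌋₊).subset
    intro t ht
    exact ⟨ht.1, ht.2.1⟩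
  · refine h3.trans ?_
    apply mul_le_mul_of_nonneg_left _ hC0
    exact Real.rpow_le_rpow (by positivity) (Nat.floor_le (by linarith)) (by linarith)

/-- **The Ramanujan bound in weight `3/2` near all common multiples.** (1) Let `0 < ε < 1/2`, `κ ≥ 0`, let `G` have steps
`≥ b > 0` and growth at most `v^d`, `D ≥ 1`, `D (d (1 - 2 ε) + κ) < 1`. Let `F` take each positive value at most `T` times at
the primes. For all large `M` and all cusp forms of weight `3/2` and any level divisible by `4`: for all `u ≤ M` but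
`M / (log M)^U`, for ALL `w ≤ M^D` which are divisible by `F p` for all primes `p > exp (√(log M))` dividing `u` exactly once,
EVERY `r ≥ 1` with `|r - G(w)| ≤ w^κ` satisfies `|a(r)| ≤ B r^(1/4 + ε)`, `B` a bound of `y^(3/4) |f|`. (2) `F p = p - 1` is
such a function, and all multiples of Carmichael's function `λ(u)` are such common multiples; `F p = |P(p)|` is such a function
for every nonconstant integral polynomial `P`. (3) `G v = α v^d` with `α > 0`, `d ≥ 1` is an example of `G`. -/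
theorem result :
    (∀ ε κ : ℝ, 0 < ε → ε < 1 / 2 → 0 ≤ κ → ∀ (G : ℕ → ℝ) (d : ℝ), Expanding G d →
      ∀ D : ℝ, 1 ≤ D → D * (d * (1 - 2 * ε) + κ) < 1 →
      ∀ (F : ℕ → ℕ) (T : ℕ), FewTimes F T → ∀ U : ℕ, ∃ M₀ : ℕ, ∀ M : ℕ, M₀ ≤ M → ∀ (a : ℕ → ℂ) (B : ℝ), Coeffs a B →
        ({u : ℕ | 1 ≤ u ∧ u ≤ M ∧ ¬ ∀ w : ℕ, 1 ≤ w → (w : ℝ) ≤ (M : ℝ) ^ D →
          Carries F (Real.exp √(Real.log M)) u w → ∀ r : ℕ, 1 ≤ r → |(r : ℝ) - G w| ≤ (w : ℝ) ^ κ →
          ‖a r‖ ≤ B * (r : ℝ) ^ (1 / 4 + ε)}.ncard : ℝ) ≤ M / Real.log M ^ U) ∧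
    (FewTimes (fun p => p - 1) 1 ∧
      (∀ (y : ℝ) (u w : ℕ), ArithmeticFunction.carmichael u ∣ w → Carries (fun p => p - 1) y u w) ∧
      ∀ P : Polynomial ℤ, 1 ≤ P.natDegree → FewTimes (fun p => (P.eval (p : ℤ)).natAbs) (2 * P.natDegree)) ∧
    ∀ α d : ℝ, 0 < α → 1 ≤ d → Expanding (fun v => α * (v : ℝ) ^ d) d := by
  refine ⟨fun ε κ hε hε2 hκ G d hG D hD h1 F T hF U => ?_, ⟨fewTimes_pred, carries_carmichael, fewTimes_poly⟩,
    fun α d hα hd => expanding_pow hα hd⟩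
  obtain ⟨C, hC⟩ := few hε hε2
  obtain ⟨M₀, hM₀⟩ := good_unif (fun t : ℕ => (t : ℝ)) hG (s := 1 - 2 * ε) (κ := κ) (B := D)
    (by linarith) hκ hD h1 C hF U
  exact ⟨M₀, fun M hM a B hf => hM₀ (fun t => 1 ≤ t) (fun t => ‖a t‖ ≤ B * (t : ℝ) ^ (1 / 4 + ε))
    (fun X hX => hC a B hf X hX) M hM⟩

end Pool.Agent.Results.MP_af11aa_nt.CarmichaelMultiples
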