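import Pool.Agent.N902.HI.Count
import Pool.Agent.N671.DA.Win

/-!
# The Ramanujan bound for cusp forms of weight `3/2` near the denominators of good approximations

Let `p` be a prime, `χ` a Dirichlet character modulo `24 p`, and `f = ∑ a(n) e(nz)` a cusp form of weight `3/2` and character
`χ` on `Γ_0(24 p)`, in Shimura's normalisation (for instance one in the subspace `S^(1)` of the problem). Let `α_1, …, α_m` be
real numbers. We consider the natural numbers `q` with `‖q α_j - β_j‖ ≤ c q^(-τ)` for all `j`, `‖x‖` the distance to the nearest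
integer; for `β = 0`, `c = 1`, `τ = 1 / m` these include the denominators of all best simultaneous approximations (the
denominators of the convergents for `m = 1`). They form a very sparse sequence, with gaps growing exponentially for almost all
`α` if `τ = 1 / m`. We show: let `0 < η ≤ 1/2`, and let `G` be a function with steps bounded below by a positive constant and
growth at most `v^d`, for example `α v^d`. For all `α` in `ℝ^m` outside a set of Hausdorff dimension at most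
`(m + d (1 - 2 η) + κ) / (1 + τ)`, and all `c`, for all but finitely many such `q` ALL the `r` with `|r - G q| ≤ q^κ` satisfy
`|a(r)| ≤ r^(1/4 + η)`, the bound of the problem. For `τ = 1 / m` the bound is less than `m` if `d (1 - 2 η) + κ < 1`; and so the
statement holds for almost all `α`. For `d = 1` any `η > 0` and `κ < 2 η` is allowed.

Proof. The fourth power of `f` is a cusp form of weight `6` on `Γ_1(24 p)`, and so `|f(z)| ≤ C y^(-3/4)`; Bessel's inequality
gives `∑_{n ≤ X} |a(n)|^2 = O(X^(3/2))`, and `O(X^(1 - 2 η))` of the `n ≤ X` violate the bound (all this is classical). The `α`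
with `‖q α_j - β_j‖ ≤ c q^(-τ)` for all `j` and infinitely many `q` of a sparse set are covered by few small cubes (N671/DA).
-/

set_option autoImplicit false

namespace Pool.Agent.Results.MP_af11aa_nt.SimultaneousApproximations

open UpperHalfPlane CongruenceSubgroup Filter Topology
open Pool.Agent.N671.DA (Solves Expanding expanding_pow approx_good_nat)
open scoped MatrixGroups Manifold

/-- `ε_d = 1` if `d ≡ 1 mod 4` and `i` otherwise (`d` odd) -/
noncomputable def eps (d : ℤ) : ℂ := if d % 4 = 1 then 1 else Complex.I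

/-- Shimura's quadratic residue symbol `(c/d)` for odd `d` -/
def sym (c d : ℤ) : ℤ := if c < 0 ∧ d < 0 then -jacobiSym c d.natAbs else jacobiSym c d.natAbs

/-- the theta multiplier `j(γ, z) = ε_d⁻¹ (c/d) (c z + d)^(1/2)`, which is `θ(γ z) / θ(z)` on `Γ_0(4)`, `θ(z) = ∑ e(n² z)` -/
noncomputable def jTheta (c d : ℤ) (z : ℂ) : ℂ := (eps d)⁻¹ * (sym c d : ℂ) * (c * z + d) ^ (1 / 2 : ℂ)

/-- cusp forms of weight `3/2`, level `N` (divisible by `4`) and character `χ`: holomorphic on the upper half plane,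
`f(γ z) = χ(d) j(γ, z)^3 f(z)` for `γ` in `Γ_0(N)`, and zero at all cusps -/
structure IsCuspForm (N : ℕ) (χ : DirichletCharacter ℂ N) (f : ℍ → ℂ) : Prop where
  holo : MDiff f
  slash : ∀ γ ∈ Gamma0 N, ∀ z : ℍ, f (γ • z) = χ ((γ 1 1 : ℤ) : ZMod N) * jTheta (γ 1 0) (γ 1 1) z ^ 3 * f z
  cusps : ∀ γ : SL(2, ℤ), Tendsto (fun z : ℍ => ‖f (γ • z)‖ * ‖((γ 1 0 : ℤ) : ℂ) * z + ((γ 1 1 : ℤ) : ℂ)‖ ^ (-(3 / 2) : ℝ))
    atImInfty (𝓝 0)

/-- `a n`, `n ≥ 1`, are the Fourier coefficients of `f`: `f(z) = ∑_{n ≥ 1} a(n) e(n z)` -/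
def HasCoeffs (f : ℍ → ℂ) (a : ℕ → ℂ) : Prop :=
  ∀ z : ℍ, HasSum (fun n : ℕ => a (n + 1) * Complex.exp (2 * Real.pi * Complex.I * ((n + 1 : ℕ) : ℂ) * z)) (f z)

/-- **The Ramanujan bound for weight `3/2` near the denominators of good approximations.** Let `p` be a prime, `f` a cusp form
of weight `3/2`, level `24 p` and character `χ` with the Fourier coefficients `a(n)`. Let `0 < η ≤ 1/2`, let `G` have steps
`≥ b > 0` and growth at most `v^d`, `0 ≤ κ ≤ 1`, `β` in `ℝ^m` and `τ > 0`. For all `α` in `ℝ^m` outside a set of Hausdorff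
dimension at most `(m + d (1 - 2 η) + κ) / (1 + τ)` and all `c`, for all large `q` with `‖q α_j - β_j‖ ≤ c q^(-τ)` for all `j`,
EVERY `r ≥ 1` with `|r - G q| ≤ q^κ` satisfies `|a(r)| ≤ r^(1/4 + η)`. The functions `α v^d` with `α > 0`, `d ≥ 1` are examples
of `G`. -/
theorem result :
    (∀ (p : ℕ), p.Prime → ∀ (χ : DirichletCharacter ℂ (24 * p)) (f : ℍ → ℂ), IsCuspForm (24 * p) χ f →
      ∀ a : ℕ → ℂ, HasCoeffs f a → ∀ η : ℝ, 0 < η → η ≤ 1 / 2 →
      ∀ (G : ℕ → ℝ) (d : ℝ), Expanding G d → ∀ κ : ℝ, 0 ≤ κ → κ ≤ 1 →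
      ∀ (m : ℕ) (β : Fin m → ℝ) (τ : ℝ), 0 < τ →
      ∃ E : Set (Fin m → ℝ), dimH E ≤ ENNReal.ofReal ((m + (d * (1 - 2 * η) + κ)) / (1 + τ)) ∧
        ∀ α, α ∉ E → ∀ c : ℝ, ∃ Q : ℕ, ∀ q : ℕ, Q ≤ q → Solves α β q (c * (q : ℝ) ^ (-τ)) →
          ∀ r : ℕ, 1 ≤ r → |(r : ℝ) - G q| ≤ (q : ℝ) ^ κ → ‖a r‖ ≤ (r : ℝ) ^ (1 / 4 + η)) ∧
    ∀ α d : ℝ, 0 < α → 1 ≤ d → Expanding (fun v => α * (v : ℝ) ^ d) d := by
  refine ⟨fun p hp χ f hf a ha η hη hη2 G d hG κ hκ hκ1 m β τ hτ => ?_, fun α d hα hd => expanding_pow hα hd⟩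
  have : NeZero (24 * p) := ⟨Nat.mul_ne_zero (by norm_num) hp.ne_zero⟩
  have hf' : Pool.Agent.N902.HI.IsCuspForm (24 * p) χ f := ⟨hf.holo, hf.slash, hf.cusps⟩
  have ha' : Pool.Agent.N902.HI.HasCoeffs f a := ha
  obtain ⟨E, hE, hE2⟩ := approx_good_nat (fun _ => True) (fun r => ‖a r‖ ≤ (r : ℝ) ^ (1 / 4 + η)) hG (s := 1 - 2 * η)
    (by linarith) hκ hκ1 (fun ε hε => Pool.Agent.N902.HI.few_large_cusp hf' ha' hη hη2 (fun _ => True) ε hε) β hτ
  refine ⟨E, hE, fun α hα c => ?_⟩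
  obtain ⟨Q, hQ⟩ := hE2 α hα c
  exact ⟨Q, fun q hq h1 r hr h2 => hQ q hq h1 r hr trivial h2⟩

end Pool.Agent.Results.MP_af11aa_nt.SimultaneousApproximations
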