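import Pool.Agent.N902.HI.Count
import Pool.Agent.N760.IT.C

/-!
# The Ramanujan bound for cusp forms of weight `3/2` near the members of almost all orbits of Euler's function

Let `f = ∑ a(n) e(nz)` be a cusp form of weight `3/2`, level `N` divisible by `4` (for instance `24 p`, `p` prime) and
character `χ`, in Shimura's normalisation; for instance one in the subspace `S^(1)` of the problem. Let `φ_k` be the `k`-th
iterate of Euler's function, `φ_0(m) = m`. Let `h` be a positive multiplicative function of at most polynomial growth such that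
`h p ≤ M p` for the large primes `p`, with different values at different large primes; for example the identity, Euler's
function or the sum of the divisors. Let `G` be a function with steps bounded below by a positive constant and growth at most
`v^d`, for example `α v^d`. We show: let `0 < η ≤ 1/2`, `κ ≥ 0` and `d (1 - 2 η) + κ < 1`. There is a function `R(m)` tending to
infinity such that for almost all `m`, for all `k ≤ R(m)`, with `v = h(φ_k(m))`, ALL the `r` with `|r - G v| ≤ v^κ` satisfy
`|a(r)| ≤ r^(1/4 + η)`, the bound of the problem. For `d = 1` any `η > 0` and `κ < 2 η` is allowed. The iterates of Euler's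
function are not multiplicative, their values form a thin set and are taken with very large multiplicities, and so this does
not follow from the number of the `r` which violate the bound.

Proof. The fourth power of `f` is a cusp form of weight `6`, and so `|f(z)| ≤ C y^(-3/4)`; Bessel's inequality gives
`∑_{n ≤ X} |a(n)|^2 = O(X^(3/2))`, and `O(X^(1 - 2 η))` of the `n ≤ X` violate the bound (all this is classical; helper902,
`N902/HI`). A set with a power saving is avoided by almost all orbits (helper760, `N760/IT`).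
-/

set_option autoImplicit false

namespace Pool.Agent.Results.MP_af11aa_nt.TotientOrbits

open UpperHalfPlane CongruenceSubgroup Filter Topology
open Pool.Agent.N733.TG (LM Expanding lm_totient lm_sigma expanding_pow)
open Pool.Agent.N760.IT (orb lm_id orbit_good_nat)
open Pool.Agent.N826.IT.Orb (AlmostAll almostAll_mono)
open scoped MatrixGroups Manifold

/-- `ε_d = 1` if `d ≡ 1 mod 4` and `i` otherwise (`d` odd) -/
noncomputable def eps (d : ℤ) : ℂ := if d % 4 = 1 then 1 else Complex.I

/-- Shimura's quadratic residue symbol `(c/d)` for odd `d` -/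
def sym (c d : ℤ) : ℤ := if c < 0 ∧ d < 0 then -jacobiSym c d.natAbs else jacobiSym c d.natAbs

/-- the theta multiplier `j(γ, z) = ε_d⁻¹ (c/d) (c z + d)^(1/2)`, which is `θ(γ z) / θ(z)` on `Γ_0(4)`, `θ(z) = ∑ e(n² z)` -/
noncomputable def jTheta (c d : ℤ) (z : ℂ) : ℂ := (eps d)⁻¹ * (sym c d : ℂ) * (c * z + d) ^ (1 / 2 : ℂ)

/-- cusp forms of weight `3/2`, level `N` (divisible by `4`) and character `χ`: holomorphic on the upper half plane,
`f(γ z) = χ(d) j(γ, z)^3 f(z)` for `γ` in `Γ_0(N)`, and zero at all cusps -/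
structure IsCuspForm (N : ℕ) (χ : DirichletCharacter ℂ N) (f : ℍ → ℂ) : Prop where
  holo : MDiff f
  slash : ∀ γ ∈ Gamma0 N, ∀ z : ℍ, f (γ • z) = χ ((γ 1 1 : ℤ) : ZMod N) * jTheta (γ 1 0) (γ 1 1) z ^ 3 * f z
  cusps : ∀ γ : SL(2, ℤ), Tendsto (fun z : ℍ => ‖f (γ • z)‖ * ‖((γ 1 0 : ℤ) : ℂ) * z + ((γ 1 1 : ℤ) : ℂ)‖ ^ (-(3 / 2) : ℝ))
    atImInfty (𝓝 0)

/-- `a n`, `n ≥ 1`, are the Fourier coefficients of `f`: `f(z) = ∑_{n ≥ 1} a(n) e(n z)` -/
def HasCoeffs (f : ℍ → ℂ) (a : ℕ → ℂ) : Prop :=
  ∀ z : ℍ, HasSum (fun n : ℕ => a (n + 1) * Complex.exp (2 * Real.pi * Complex.I * ((n + 1 : ℕ) : ℂ) * z)) (f z)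

/-- **The Ramanujan bound for weight `3/2` near the members of almost all orbits of Euler's function.** Let `f` be a cusp form
of weight `3/2`, level `N` divisible by `4` and character `χ` with the Fourier coefficients `a(n)`. Let `0 < η ≤ 1/2`, let `h` be
multiplicative and positive, of at most polynomial growth, with `h p ≤ M p` at the large primes, and injective there, let `G`
have steps `≥ b > 0` and growth at most `v^d`, `κ ≥ 0` and `d (1 - 2 η) + κ < 1`. Then there is `R(m)` tending to infinity such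
that for almost all `m`, for all `k ≤ R(m)`, with `v = h(φ_k(m))` (`orb h k m`), EVERY `r ≥ 1` with `|r - G v| ≤ v^κ` satisfies
`|a(r)| ≤ r^(1/4 + η)`. The identity, Euler's function and the sum of the divisors are examples of such functions `h`, and
`α v^d` with `α > 0`, `d ≥ 1` is an example of `G`. -/
theorem result :
    (∀ (N : ℕ), 0 < N → 4 ∣ N → ∀ (χ : DirichletCharacter ℂ N) (f : ℍ → ℂ), IsCuspForm N χ f →
      ∀ a : ℕ → ℂ, HasCoeffs f a → ∀ η : ℝ, 0 < η → η ≤ 1 / 2 → ∀ h : ℕ → ℕ, LM h →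
      ∀ (G : ℕ → ℝ) (d : ℝ), Expanding G d → ∀ κ : ℝ, 0 ≤ κ → d * (1 - 2 * η) + κ < 1 →
      ∃ R : ℕ → ℕ, Tendsto R atTop atTop ∧
        AlmostAll (fun m => ∀ k ≤ R m, ∀ r : ℕ, 1 ≤ r → |(r : ℝ) - G (orb h k m)| ≤ (orb h k m : ℝ) ^ κ →
          ‖a r‖ ≤ (r : ℝ) ^ (1 / 4 + η))) ∧
    (LM (fun m => m) ∧ LM Nat.totient ∧ LM (fun m => ∑ d ∈ m.divisors, d)) ∧
    ∀ α d : ℝ, 0 < α → 1 ≤ d → Expanding (fun v => α * (v : ℝ) ^ d) d := by
  refine ⟨fun N hN _ χ f hf a ha η hη hη2 h hh G d hG κ hκ h1 => ?_, ⟨lm_id, lm_totient, lm_sigma⟩,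
    fun α d hα hd => expanding_pow hα hd⟩
  have : NeZero N := ⟨hN.ne'⟩
  have hf' : Pool.Agent.N902.HI.IsCuspForm N χ f := ⟨hf.holo, hf.slash, hf.cusps⟩
  have ha' : Pool.Agent.N902.HI.HasCoeffs f a := ha
  obtain ⟨R, hR, hR2⟩ := orbit_good_nat (fun _ => True) (fun r => ‖a r‖ ≤ (r : ℝ) ^ (1 / 4 + η)) hh hG (s := 1 - 2 * η)
    (by linarith) hκ h1 (fun ε hε => Pool.Agent.N902.HI.few_large_cusp hf' ha' hη hη2 (fun _ => True) ε hε)
  exact ⟨R, hR, almostAll_mono hR2 (fun m hm k hk r hr h2 => hm k hk r hr trivial h2)⟩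

end Pool.Agent.Results.MP_af11aa_nt.TotientOrbits
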