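import Pool.Agent.N903.HW.A
import Pool.Agent.N375.AV.F
import Pool.Agent.N375.AV.Ex
import Pool.Agent.N375.MV.Unif
import Pool.Agent.N733.TG.I

/-!
# The Ramanujan bound for cusp forms of weight 3/2 near the values of multiplicative and of additive functions

Let `f(z) = Σ a(n) e(nz)` be a cusp form of weight `3/2` and of any level divisible by `4`, for instance `24 p`, with any
character, and let `B` be the maximum of `y^(3/4) |f(z)|`. Let `0 < ε < 1/2`, let `h` be a positive multiplicative function,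
for example Euler's function or the sum of the divisors, and `d (1 - 2 ε) + κ < 1`, `d ≥ 1`. For all `u ≤ M` but
`M / (log M)^U` EVERY `r` with `|r - α h(u)^d| ≤ h(u)^κ` satisfies `|a(r)| ≤ B r^(1/4 + ε)`; `M` has to be large, but how
large does not depend on `f` or on the level. The same is true near the values of compositions of additive functions,
as the sum of the prime factors.

Proof. `∫ |f(x + i y)|² dx ≤ B² y^(-3/2)` shows `Σ_{n ≤ N} |a(n)|² ≤ e^(4 π) B² N^(3/2)`, and so at most `C(ε) N^(1 - 2 ε)`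
integers `r ≤ N` violate the bound. The values of `h` are taken with large multiplicities and are sparse, and so this is not
enough; but the preimages of sets with a power saving are small (`Pool/Agent/N733/TG`, `Pool/Agent/N375/AV`).
-/

set_option autoImplicit false

namespace Pool.Agent.Results.MP_af11aa_nt.ValuesWeightThreeHalves

open Finset
open Pool.Agent.N733.TG (LM Expanding lm_totient lm_sigma expanding_pow)
open Pool.Agent.N375.AV (PD comp pd_additive pd_largest pd_kempner)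
open Pool.Agent.N903.HW (e theta)

/-- `f` is a cusp form of weight `3/2` on `Γ_0(N)` with the character `χ` (Shimura's normalisation: the automorphy factor is
`χ(d) j(γ, z)^3`, `j(γ, z) = θ(γ z) / θ(z)`). That `f` vanishes at the cusps is expressed, as usual, by the boundedness of
`y^(3/4) |f(z)|` in the upper half plane. -/
structure IsCuspForm (N : ℕ) (χ : DirichletCharacter ℂ N) (f : ℂ → ℂ) : Prop where
  holo : DifferentiableOn ℂ f {z : ℂ | 0 < z.im}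
  modular : ∀ a b c d : ℤ, a * d - b * c = 1 → (N : ℤ) ∣ c → ∀ z : ℂ, 0 < z.im →
    f ((a * z + b) / (c * z + d)) = χ (d : ZMod N) * (theta ((a * z + b) / (c * z + d)) / theta z) ^ 3 * f z
  cusp : ∃ B : ℝ, ∀ z : ℂ, 0 < z.im → z.im ^ (3 / 4 : ℝ) * ‖f z‖ ≤ B

/-- `a(n)`, `n ≥ 1`, are the Fourier coefficients at infinity of a cusp form `f` of weight `3/2`, of some level divisible by
`4` and some character, and `y^(3/4) |f(z)| ≤ B` in the upper half plane. -/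
def Coeffs (a : ℕ → ℂ) (B : ℝ) : Prop :=
  ∃ (N : ℕ) (χ : DirichletCharacter ℂ N) (f : ℂ → ℂ), 1 ≤ N ∧ 4 ∣ N ∧ IsCuspForm N χ f ∧ a 0 = 0 ∧
    (∀ z : ℂ, 0 < z.im → HasSum (fun n : ℕ => a n * e (n * z)) (f z)) ∧
    ∀ z : ℂ, 0 < z.im → z.im ^ (3 / 4 : ℝ) * ‖f z‖ ≤ B

/-- the exceptions -/
theorem few {ε : ℝ} (hε : 0 < ε) (hε2 : ε < 1 / 2) : ∃ C : ℝ, ∀ (a : ℕ → ℂ) (B : ℝ), Coeffs a B → ∀ X : ℝ, 1 ≤ X →
    {t : ℕ | (1 ≤ t ∧ ¬ ‖a t‖ ≤ B * (t : ℝ) ^ (1 / 4 + ε)) ∧ (t : ℝ) ≤ X}.Finite ∧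
    ({t : ℕ | (1 ≤ t ∧ ¬ ‖a t‖ ≤ B * (t : ℝ) ^ (1 / 4 + ε)) ∧ (t : ℝ) ≤ X}.ncard : ℝ) ≤ C * X ^ (1 - 2 * ε) := by
  obtain ⟨C, hC0, hC⟩ := Pool.Agent.N903.HW.exceptional' (K := Real.exp (4 * Real.pi)) (by positivity) hε hε2
  refine ⟨C, fun a B h X hX => ?_⟩
  obtain ⟨N, χ, f, -, -, -, -, h1, h2⟩ := h
  have hB : 0 ≤ B := by
    refine le_trans ?_ (h2 Complex.I (by simp))
    have : (0 : ℝ) ≤ Complex.I.im ^ (3 / 4 : ℝ) := Real.rpow_nonneg (by simp) _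
    positivity
  have h3 := hC a B hB (fun N hN => Pool.Agent.N903.HW.mean_square f a h1 h2 N hN) ⌊X⌋₊
  have h4 : {t : ℕ | (1 ≤ t ∧ ¬ ‖a t‖ ≤ B * (t : ℝ) ^ (1 / 4 + ε)) ∧ (t : ℝ) ≤ X} =
      {t : ℕ | 1 ≤ t ∧ t ≤ ⌊X⌋₊ ∧ ¬ ‖a t‖ ≤ B * (t : ℝ) ^ (1 / 4 + ε)} := by
    ext t
    simp only [Set.mem_ofPred_eq]
    rw [Nat.le_floor_iff (by linarith)]
    tauto
  rw [h4]
  constructor
  · apply (Set.finite_Icc 1 ⌊X⌋₊).subset
    intro t ht
    exact ⟨ht.1, ht.2.1⟩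
  · refine h3.trans ?_
    apply mul_le_mul_of_nonneg_left _ hC0
    exact Real.rpow_le_rpow (by positivity) (Nat.floor_le (by linarith)) (by linarith)

/-- **The Ramanujan bound in weight `3/2` near the values of multiplicative and additive functions.** Let `0 < ε < 1/2`,
`κ ≥ 0`, let `G` have steps `≥ a > 0` and growth at most `v^d`, `d (1 - 2 ε) + κ < 1`. (1) Let `h` be multiplicative and
positive, of at most polynomial growth, with `h p ≤ M p` at the large primes, and injective there. For all large `M` and all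
cusp forms of weight `3/2` and any level, for all `u ≤ M` but `M / (log M)^U`, EVERY `r ≥ 1` with `|r - G (h u)| ≤ h(u)^κ`
satisfies `|a(r)| ≤ B r^(1/4 + ε)`, `B` a bound of `y^(3/4) |f|`. (2) The same with `F = f_1 ∘ ⋯ ∘ f_k`, functions dominated by
the largest prime factor, but for `K M exp (- c (log M)^(1/(k+1)))` of the `u`. (3) Examples. -/
theorem result :
    (∀ ε κ : ℝ, 0 < ε → ε < 1 / 2 → 0 ≤ κ → ∀ (G : ℕ → ℝ) (d : ℝ), Expanding G d → d * (1 - 2 * ε) + κ < 1 →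
      (∀ h : ℕ → ℕ, LM h → ∀ U : ℕ, ∃ M₀ : ℕ, ∀ M : ℕ, M₀ ≤ M → ∀ (a : ℕ → ℂ) (B : ℝ), Coeffs a B →
        ({u : ℕ | 1 ≤ u ∧ u ≤ M ∧ ¬ ∀ r : ℕ, 1 ≤ r → |(r : ℝ) - G (h u)| ≤ (h u : ℝ) ^ κ →
          ‖a r‖ ≤ B * (r : ℝ) ^ (1 / 4 + ε)}.ncard : ℝ) ≤ M / Real.log M ^ U) ∧
      (∀ fs : List (ℕ → ℕ), (∀ f ∈ fs, PD f) → ∃ c K : ℝ, 0 < c ∧ ∀ M : ℕ, 1 ≤ M → ∀ (a : ℕ → ℂ) (B : ℝ), Coeffs a B →
        ({u : ℕ | 1 ≤ u ∧ u ≤ M ∧ ¬ ∀ r : ℕ, 1 ≤ r → |(r : ℝ) - G (comp fs u)| ≤ (comp fs u : ℝ) ^ κ →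
          ‖a r‖ ≤ B * (r : ℝ) ^ (1 / 4 + ε)}.ncard : ℝ) ≤
        K * M * Real.exp (-(c * Real.log M ^ ((1 : ℝ) / (fs.length + 1)))))) ∧
    (LM Nat.totient ∧ LM (fun m => ∑ d ∈ m.divisors, d)) ∧
    (∀ f : ℕ → ℕ, (∀ a b : ℕ, Nat.Coprime a b → f (a * b) = f a + f b) →
      (∃ C : ℕ, ∀ q j : ℕ, q.Prime → 1 ≤ j → f (q ^ j) ≤ C * q ^ j) →
      (∃ P : ℕ, ∀ p q : ℕ, p.Prime → q.Prime → P ≤ p → P ≤ q → f p = f q → p = q) → PD f) ∧
    (PD (fun n => n.primeFactors.sup id) ∧ PD (fun n => sInf {k : ℕ | n ∣ k.factorial})) ∧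
    ∀ α d : ℝ, 0 < α → 1 ≤ d → Expanding (fun v => α * (v : ℝ) ^ d) d := by
  refine ⟨fun ε κ hε hε2 hκ G d hG h1 => ?_, ⟨lm_totient, lm_sigma⟩, fun f a1 a2 a3 => pd_additive a1 a2 a3,
    ⟨pd_largest, pd_kempner⟩, fun α d hα hd => expanding_pow hα hd⟩
  obtain ⟨C, hC⟩ := few hε hε2
  constructor
  · intro h hh U
    obtain ⟨M₀, hM₀⟩ := Pool.Agent.N375.MV.keep_windows_unif (fun t : ℕ => (t : ℝ)) hh hG (s := 1 - 2 * ε) (κ := κ)
      (by linarith) hκ h1 C U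
    refine ⟨M₀, fun M hM a B hf => ?_⟩
    have h2 := hM₀ M hM {t : ℕ | 1 ≤ t ∧ ¬ ‖a t‖ ≤ B * (t : ℝ) ^ (1 / 4 + ε)} (fun X hX => hC a B hf X hX)
    refine le_trans (le_of_eq ?_) h2
    congr 2
    ext u
    simp only [Set.mem_ofPred_eq]
    refine and_congr_right fun _ => and_congr_right fun _ => ?_
    push Not
    constructor
    · rintro ⟨r, b1, b2, b3⟩
      exact ⟨r, ⟨b1, b3⟩, b2⟩
    · rintro ⟨r, ⟨b1, b3⟩, b2⟩
      exact ⟨r, b1, b2, b3⟩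
  · intro fs hfs
    obtain ⟨c, K, hc, hK⟩ := Pool.Agent.N375.AV.windows_unif (fun t : ℕ => (t : ℝ)) fs hfs hG (s := 1 - 2 * ε) (κ := κ)
      (by linarith) hκ h1 C
    refine ⟨c, K, hc, fun M hM a B hf => ?_⟩
    have h2 := hK {t : ℕ | 1 ≤ t ∧ ¬ ‖a t‖ ≤ B * (t : ℝ) ^ (1 / 4 + ε)} (fun X hX => hC a B hf X hX) M hM
    refine le_trans (le_of_eq ?_) h2
    congr 2
    ext u
    simp only [Set.mem_ofPred_eq]
    refine and_congr_right fun _ => and_congr_right fun _ => ?_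
    push Not
    constructor
    · rintro ⟨r, b1, b2, b3⟩
      exact ⟨r, ⟨b1, b3⟩, b2⟩
    · rintro ⟨r, ⟨b1, b3⟩, b2⟩
      exact ⟨r, b1, b2, b3⟩

end Pool.Agent.Results.MP_af11aa_nt.ValuesWeightThreeHalves
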